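import Mathlib

namespace Pool.Agent.Results.MP_aff17b_co.Level

section
variable {n : ℕ}

/-- the s-lecture hall simplex in dimension n + 1 -/
def P (s : Fin (n + 1) → ℕ) : Set (Fin (n + 1) → ℝ) :=
  {x | 0 ≤ x 0 / s 0 ∧ (∀ j : Fin n, x j.castSucc / s j.castSucc ≤ x j.succ / s j.succ) ∧
    x (Fin.last n) / s (Fin.last n) ≤ 1}

/-- the cone over Q × {1} -/
def cone {ι : Type} (Q : Set (ι → ℝ)) : Set ((ι → ℝ) × ℝ) :=
  {z | ∃ t : ℝ, 0 ≤ t ∧ ∃ x ∈ Q, z = t • (x, 1)}

/-- the lattice point (x, k) lies in S -/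
def In {ι : Type} (x : ι → ℤ) (k : ℤ) (S : Set ((ι → ℝ) × ℝ)) : Prop :=
  ((fun i => (x i : ℝ)), (k : ℝ)) ∈ S

/-- level polytopes -/
def IsLevel {ι : Type} (Q : Set (ι → ℝ)) : Prop :=
  ∃ d : ℤ, IsLeast {k | ∃ x, In x k (interior (cone Q))} d ∧ ∀ x k, In x k (interior (cone Q)) →
    ∃ u v, In u d (interior (cone Q)) ∧ In v (k - d) (cone Q) ∧ x = u + v

variable (s : Fin (n + 1) → ℕ) (hs : ∀ i, 1 ≤ s i)
include hs

lemma cone_eq : cone (P s) = {z : (Fin (n + 1) → ℝ) × ℝ | 0 ≤ z.1 0 / s 0 ∧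
    (∀ j : Fin n, z.1 j.castSucc / s j.castSucc ≤ z.1 j.succ / s j.succ) ∧
    z.1 (Fin.last n) / s (Fin.last n) ≤ z.2} := by
  ext ⟨x, t⟩
  constructor
  · rintro ⟨r, hr, y, ⟨h1, h2, h3⟩, e⟩
    simp only [e, Set.mem_ofPred_eq, Prod.smul_mk, Pi.smul_apply, smul_eq_mul, mul_div_assoc]
    exact ⟨mul_nonneg hr h1, fun j => mul_le_mul_of_nonneg_left (h2 j) hr,
      mul_le_mul_of_nonneg_left h3 hr⟩
  · rintro ⟨h1, h2, h3⟩
    have m : Monotone fun i => x i / s i := Fin.monotone_iff_le_succ.mpr h2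
    have b : ∀ i, 0 ≤ x i / s i ∧ x i / s i ≤ t := fun i =>
      ⟨h1.trans (m (Fin.zero_le i)), (m (Fin.le_last i)).trans h3⟩
    have t0 : 0 ≤ t := (b 0).1.trans (b 0).2
    refine ⟨t, t0, t⁻¹ • x, ?_, ?_⟩
    · simp only [P, Set.mem_ofPred_eq, Pi.smul_apply, smul_eq_mul, mul_div_assoc]
      exact ⟨mul_nonneg (inv_nonneg.mpr t0) h1,
        fun j => mul_le_mul_of_nonneg_left (h2 j) (inv_nonneg.mpr t0), inv_mul_le_one_of_le₀ h3 t0⟩
    · rcases t0.eq_or_lt with rfl | h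
      · ext i
        · have : (s i : ℝ) ≠ 0 := by have := hs i; positivity
          simpa [this] using (b i).2.antisymm (b i).1
        · simp
      · simp [smul_smul, h.ne']

lemma int_eq : interior (cone (P s)) = {z : (Fin (n + 1) → ℝ) × ℝ | 0 < z.1 0 / s 0 ∧
    (∀ j : Fin n, z.1 j.castSucc / s j.castSucc < z.1 j.succ / s j.succ) ∧
    z.1 (Fin.last n) / s (Fin.last n) < z.2} := by
  rw [cone_eq s hs]
  apply le_antisymm
  · intro z hz
    let d : (Fin (n + 1) → ℝ) × ℝ := (fun i => -(i + 1) * s i, -(n + 2))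
    have c : Filter.Tendsto (fun t : ℝ => z + t • d) (nhdsWithin 0 (Set.Ioi 0)) (nhds z) := by
      refine tendsto_nhdsWithin_of_tendsto_nhds ?_
      simpa using (show Continuous fun t : ℝ => z + t • d by fun_prop).tendsto 0
    obtain ⟨t, t0, h1, h2, h3⟩ :=
      (eventually_mem_nhdsWithin.and (c.eventually (mem_interior_iff_mem_nhds.mp hz))).exists
    have e : ∀ i, (z + t • d).1 i / s i = z.1 i / s i - t * (i + 1) := fun i => by
      have : (s i : ℝ) ≠ 0 := by have := hs i; positivity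
      simp [d]; field_simp; ring
    simp only [e] at h1 h2 h3
    simp [d] at h1 h2 h3
    have : 0 < t := t0
    exact ⟨by linarith, fun j => by linarith [h2 j], by linarith⟩
  · refine interior_maximal (fun x h => ⟨h.1.le, fun j => (h.2.1 j).le, h.2.2.le⟩) ?_
    simp only [Set.ofPred_and, Set.ofPred_forall]
    exact (isOpen_lt (by fun_prop) (by fun_prop)).inter ((isOpen_iInter_of_finite fun i =>
      isOpen_lt (by fun_prop) (by fun_prop)).inter (isOpen_lt (by fun_prop) (by fun_prop)))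
end

/-- The gcd condition implies levelness. -/
theorem result {n : ℕ} (s : Fin (n + 1) → ℕ) (hs : ∀ i, 1 ≤ s i) (c : Fin (n + 1) → ℤ)
    (h0 : c 0 = 1) (hc : ∀ j : Fin n, c j.succ * s j.castSucc =
      c j.castSucc * s j.succ + Nat.gcd (s j.castSucc) (s j.succ)) : IsLevel (P s) := by
  have p : ∀ i, (0 : ℝ) < s i := fun i => by exact_mod_cast hs i
  have pz : ∀ i, (0 : ℤ) < s i := fun i => by exact_mod_cast hs i
  have I : ∀ x k, In x k (interior (cone (P s))) ↔ 0 < x 0 ∧ (∀ j : Fin n,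
      x j.castSucc * s j.succ < x j.succ * s j.castSucc) ∧ x (Fin.last n) < k * s (Fin.last n) :=
    fun x k => by
      simp only [In, int_eq s hs, Set.mem_ofPred_eq, div_lt_div_iff₀ (p _) (p _), div_lt_iff₀ (p _),
        div_pos_iff_of_pos_right (p _)]
      norm_cast
  have C : ∀ x k, In x k (cone (P s)) ↔ 0 ≤ x 0 ∧ (∀ j : Fin n,
      x j.castSucc * s j.succ ≤ x j.succ * s j.castSucc) ∧ x (Fin.last n) ≤ k * s (Fin.last n) :=
    fun x k => by
      simp only [In, cone_eq s hs, Set.mem_ofPred_eq, div_le_div_iff₀ (p _) (p _), div_le_iff₀ (p _),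
        le_div_iff₀ (p _), zero_mul]
      norm_cast
  have g : ∀ j : Fin n, (0 : ℤ) < Nat.gcd (s j.castSucc) (s j.succ) := fun j => by
    exact_mod_cast Nat.gcd_pos_of_pos_left _ (hs _)
  have Y : ∀ x k, In x k (interior (cone (P s))) → (∀ j : Fin n, (x j.castSucc - c j.castSucc) *
      s j.succ ≤ (x j.succ - c j.succ) * s j.castSucc) ∧ ∀ i, c i ≤ x i := fun x k h => by
    rw [I] at h
    have a : ∀ j : Fin n, (x j.castSucc - c j.castSucc) * s j.succ ≤
        (x j.succ - c j.succ) * s j.castSucc := fun j => by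
      have := Int.le_of_dvd (sub_pos.mpr (h.2.1 j)) (show (Nat.gcd (s j.castSucc) (s j.succ) : ℤ) ∣ _
        from dvd_sub (Dvd.dvd.mul_left (Int.natCast_dvd_natCast.mpr (Nat.gcd_dvd_left _ _)) _)
          (Dvd.dvd.mul_left (Int.natCast_dvd_natCast.mpr (Nat.gcd_dvd_right _ _)) _))
      linarith [hc j]
    refine ⟨a, Fin.induction (by omega) fun j ih => ?_⟩
    nlinarith [a j, pz j.succ, pz j.castSucc]
  have d1 := Int.lt_ediv_add_one_mul_self (c (Fin.last n)) (pz (Fin.last n))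
  have d2 := Int.ediv_mul_le (c (Fin.last n)) (pz (Fin.last n)).ne'
  set d := c (Fin.last n) / s (Fin.last n) + 1
  have low : ∀ x k, In x k (interior (cone (P s))) → d ≤ k := fun x k h => by
    have := (Y x k h).2 (Fin.last n)
    have := ((I x k).mp h).2.2
    nlinarith [pz (Fin.last n)]
  refine ⟨d, ⟨⟨c, (I _ _).mpr ⟨by omega, fun j => by linarith [hc j, g j], d1⟩⟩,
    fun k ⟨x, h⟩ => low x k h⟩, fun x k h => ?_⟩
  obtain ⟨y1, y2⟩ := Y x k h
  have m0 := sub_nonneg.mpr (low x k h)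
  rw [I] at h
  refine ⟨fun i => c i + max (x i - c i - (k - d) * s i) 0, fun i => min (x i - c i) ((k - d) * s i),
    (I _ _).mpr ⟨by omega, fun j => ?_, ?_⟩, (C _ _).mpr ⟨?_, fun j => ?_, min_le_right _ _⟩,
    funext fun i => by simp only [Pi.add_apply]; omega⟩
  · have : max (x j.castSucc - c j.castSucc - (k - d) * s j.castSucc) 0 * s j.succ ≤
        max (x j.succ - c j.succ - (k - d) * s j.succ) 0 * s j.castSucc := by
      rw [max_mul_of_nonneg _ _ (pz _).le, max_mul_of_nonneg _ _ (pz _).le, zero_mul, zero_mul]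
      exact max_le_max (by linarith [y1 j]) le_rfl
    linarith [hc j, g j]
  · rw [← max_add_add_left]
    exact max_lt (by linarith [h.2.2]) (by linarith)
  · exact le_min (sub_nonneg.mpr (y2 0)) (mul_nonneg m0 (pz 0).le)
  · rw [min_mul_of_nonneg _ _ (pz _).le, min_mul_of_nonneg _ _ (pz _).le]
    exact min_le_min (y1 j) (by linarith)

end Pool.Agent.Results.MP_aff17b_co.Level
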